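import Mathlib
import Pool.Agent.R865.DS.H

/-!
# MP_9415b6_co: the subset-sum 1-designs in cyclic groups (full answer to Q1)

For `n ≥ 1`, `1 ≤ k ≤ n` and `x` modulo `n`, the blocks are the `k`-element subsets of `ℤ/n` with sum
`x`.  The theorem is an explicit arithmetic criterion for `(ℤ/n, blocks)` to be a 1-design.
-/

set_option autoImplicit false

namespace Pool.Agent.Results.MP_9415b6_co.OneDesigns
open Finset

/-- `B_k^x`: the `k`-element subsets of `ℤ/n` with sum `x`. -/
def Blocks (n k : ℕ) [NeZero n] (x : ZMod n) : Finset (Finset (ZMod n)) :=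
  ((univ : Finset (ZMod n)).powersetCard k).filter (fun T => ∑ t ∈ T, t = x)

/-- `(ℤ/n, B_k^x)` is a 1-design: there is a block, and every point lies in the same number of
blocks. -/
def IsOneDesign (n k : ℕ) [NeZero n] (x : ZMod n) : Prop :=
  (Blocks n k x).Nonempty ∧
    ∃ r : ℕ, ∀ y : ZMod n, ((Blocks n k x).filter (fun T => y ∈ T)).card = r

theorem result (n k x : ℕ) [NeZero n] (hk : 1 ≤ k) (hkn : k ≤ n) :
    IsOneDesign n k (x : ZMod n) ↔
      (k = n ∧ x ≡ n * (n - 1) / 2 [MOD n]) ∨
      (k < n ∧ ∀ p : ℕ, p.Prime → padicValNat p k < padicValNat p n → p ^ padicValNat p k ∣ x →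
        ((k < p ^ (padicValNat p k + 1) ∧ ¬ Nat.gcd k n ∣ x) ∨
        (n - k < p ^ (padicValNat p k + 1) ∧ ¬ x ≡ n * (n - 1) / 2 [MOD Nat.gcd k n]) ∨
        (n / p ∣ k ∧ n / p ∣ x ∧ p ^ padicValNat p n < k ∧ k < 2 * p ^ padicValNat p n) ∨
        (n / p ∣ n - k ∧ x ≡ n * (n - 1) / 2 [MOD n / p] ∧ p ^ padicValNat p n < n - k ∧
          n - k < 2 * p ^ padicValNat p n))) := by
  rcases Nat.eq_or_lt_of_le hkn with h | h
  · subst h
    have hS : ∑ t : ZMod k, t = ((k * (k - 1) / 2 : ℕ) : ZMod k) :=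
      Pool.Agent.R865.DS.sum_univ_zmod k
    have hb : ∀ T, T ∈ Blocks k k (x : ZMod k) ↔ T = univ ∧ x ≡ k * (k - 1) / 2 [MOD k] := by
      intro T
      rw [Blocks, Finset.mem_filter, Finset.mem_powersetCard]
      constructor
      · rintro ⟨⟨-, h1⟩, h2⟩
        have hT : T = univ := by
          rw [← Finset.card_eq_iff_eq_univ, ZMod.card, h1]
        refine ⟨hT, ?_⟩
        rw [hT, hS] at h2
        exact ((ZMod.natCast_eq_natCast_iff _ _ _).1 h2).symm
      · rintro ⟨rfl, h2⟩
        refine ⟨⟨subset_rfl, by rw [Finset.card_univ, ZMod.card]⟩, ?_⟩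
        rw [hS]
        exact ((ZMod.natCast_eq_natCast_iff _ _ _).2 h2).symm
    constructor
    · rintro ⟨⟨T, hT⟩, -⟩
      exact Or.inl ⟨rfl, ((hb T).1 hT).2⟩
    · rintro (⟨-, h1⟩ | ⟨h1, -⟩)
      · refine ⟨⟨univ, (hb univ).2 ⟨rfl, h1⟩⟩, 1, fun y => ?_⟩
        rw [Finset.card_eq_one]
        refine ⟨univ, ?_⟩
        ext T
        rw [Finset.mem_filter, hb, Finset.mem_singleton]
        constructor
        · exact fun h2 => h2.1.1
        · rintro rfl
          exact ⟨⟨rfl, h1⟩, Finset.mem_univ y⟩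
      · exact absurd h1 (lt_irrefl k)
  · have hk0 : k ≠ 0 := by omega
    have hn0 : n ≠ 0 := NeZero.ne n
    have hdef : IsOneDesign n k (x : ZMod n) ↔
        Pool.Agent.R865.DS.IsOneDesign n k (x : ZMod n) := Iff.rfl
    rw [hdef, Pool.Agent.R865.DS.design_iff hk h, Pool.Agent.R865.DS.const_iff_loc hk0]
    constructor
    · intro h1
      right
      refine ⟨h, fun p hp hv hx => ?_⟩
      have hvk : padicValNat p k = k.factorization p := (Nat.factorization_def k hp).symm
      have hvn : padicValNat p n = n.factorization p := (Nat.factorization_def n hp).symm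
      rw [hvk, hvn] at hv
      rw [hvk] at hx
      rw [hvk, hvn]
      have L : Pool.Agent.R865.DS.LD n k p (n.factorization p) (k.factorization p)
          (n / p ^ n.factorization p) (k / p ^ k.factorization p) :=
        ⟨hp, (Nat.ordProj_mul_ordCompl_eq_self n p).symm, Nat.not_dvd_ordCompl hp hn0,
          (Nat.ordProj_mul_ordCompl_eq_self k p).symm, Nat.not_dvd_ordCompl hp hk0, hv⟩
      exact (Pool.Agent.R865.DS.loc_iff L hk h x).1 (h1 _ _ _ _ _ L) hx
    · rintro (⟨h1, -⟩ | ⟨-, h1⟩)
      · exact absurd h1 h.ne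
      · intro p a v n' k' L
        rw [Pool.Agent.R865.DS.loc_iff L hk h x]
        intro hx
        have hp := L.hp
        have : Fact p.Prime := ⟨hp⟩
        have hn'0 : n' ≠ 0 := L.n'_ne
        have hk'0 : k' ≠ 0 := by
          rintro rfl
          exact hk0 (by rw [L.hk, mul_zero])
        have hvn : padicValNat p n = a := by
          rw [L.hn, padicValNat.mul (pow_ne_zero _ hp.ne_zero) hn'0, padicValNat.prime_pow,
            padicValNat.eq_zero_of_not_dvd L.hn', add_zero]
        have hvk : padicValNat p k = v := by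
          rw [L.hk, padicValNat.mul (pow_ne_zero _ hp.ne_zero) hk'0, padicValNat.prime_pow,
            padicValNat.eq_zero_of_not_dvd L.hk', add_zero]
        have h2 := h1 p hp (by rw [hvn, hvk]; exact L.hv) (by rw [hvk]; exact hx)
        rw [hvn, hvk] at h2
        exact h2

end Pool.Agent.Results.MP_9415b6_co.OneDesigns
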